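import Mathlib
import Pool.Agent.TH629.ExpAlg2

set_option autoImplicit false

/-!
# Algebraic relations between the digits of `e` and algebraic numbers

For a real number with base `b` digits `a_1, a_2, …` after the point let
`D(X) = a_1 X + ⋯ + a_L X^L`.  Counting coefficients, there are always relations
`h_0 M_0 + ⋯ + h_m M_m ≡ 0 mod X^(L+1)` between `m + 1` given monomials `M_j` in the digit
polynomials `D_1, …, D_n` of `n` numbers, with polynomials `h_j`, not all zero, of degree at most
`L / (m + 1) + 1`.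

* For `e` there are no such relations of degree `≤ r` in `D` with coefficients of smaller degree,
  asymptotically; this holds in all bases at once.
* For numbers `α_i e^{k_i}`, `α_i` in a real number field, the degrees of the coefficients are at
  least a positive constant times `L`; for instance for `e`, `√2` and the golden ratio.
-/

namespace Pool.Agent.Results.MP_7e9a3a_nt.AlgebraicRelations

open Finset Polynomial Module

/-- the `i`-th digit of `x` after the point in base `b` -/
noncomputable def digit (b : ℕ) (x : ℝ) (i : ℕ) : ℤ := ⌊x * (b : ℝ) ^ i⌋ % (b : ℤ)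

/-- the polynomial `a_1 X + a_2 X^2 + ⋯ + a_L X^L`, where `a_i` is the `i`-th digit of `x` after
the point in base `b` -/
noncomputable def digitPoly (b : ℕ) (x : ℝ) (L : ℕ) : ℚ[X] :=
  ∑ i ∈ Icc 1 L, C (digit b x i : ℚ) * X ^ i

/-- there are polynomials `h_0, …, h_m` over `ℚ` of degree `≤ k`, not all zero, such that
`∑_j h_j ∏_i D_i ^ (E j i)` is divisible by `X^(L+1)`, where `D_i = a_1 X + ⋯ + a_L X^L` is formed
with the base `b` digits of `x_i` -/
def MonRelation (b : ℕ) {n m : ℕ} (x : Fin n → ℝ) (E : Fin (m + 1) → Fin n → ℕ) (L k : ℕ) : Prop :=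
  ∃ h : Fin (m + 1) → ℚ[X], h ≠ 0 ∧ (∀ j, (h j).natDegree ≤ k) ∧
    X ^ (L + 1) ∣ ∑ j, h j * ∏ i, digitPoly b (x i) L ^ E j i

/-- the least `k` for which there is such a relation between the monomials with exponents `E j`
in the digit polynomials of `x_1, …, x_n` -/
noncomputable def monComplexity (b : ℕ) {n m : ℕ} (x : Fin n → ℝ) (E : Fin (m + 1) → Fin n → ℕ)
    (L : ℕ) : ℕ := sInf {k | MonRelation b x E L k}

/-- (1) Let `k_1, …, k_n` be nonnegative integers and `E` a family of `m + 1` exponent vectors which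
is closed under taking smaller vectors, such that the monomials in the numbers `e^{k_i}` with
exponents `E_j` are different (the integers `∑ k_i E_{j,i}` are distinct).  Then the complexity of the
first `L` digits of `e^{k_1}, …, e^{k_n}` with respect to these monomials is `L / (m + 1) + o(L)`,
uniformly in the base.  For instance for `e` and the monomials `1, D, …, D^r` (algebraic relations of
degree `≤ r`) it is `L / (r + 1) + o(L)`.

(2) Let `K` be a real number field of degree `d`, `α_1, …, α_n ∈ K`, `k_1, …, k_n` nonnegative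
integers and `E` a family of `m + 1` exponent vectors which is closed under taking smaller vectors,
with `∑ k_i E_{j,i} ≤ R` for all `j`.  If the monomials `∏ (α_i e^{k_i}) ^ (E_{j,i})` are linearly
independent over `ℚ`, then the complexity of the first `L` digits of the numbers `α_i e^{k_i}` with
respect to these monomials lies between `(1 / (d (d R + 1)) - o(1)) L` and
`(1 / (m + 1) + o(1)) L`, uniformly in the base.

(3) The complexity of the first `L` digits of `e`, `√2` and the golden ratio with respect to the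
`4 r + 4` monomials `D_1^u D_2^s D_3^t` with `u ≤ r`, `s, t ≤ 1` is at least
`(1 / (4 (4 r + 1)) - o(1)) L`, uniformly in the base. -/
theorem result :
    (∀ (n m : ℕ) (k : Fin n → ℕ) (E : Fin (m + 1) → Fin n → ℕ),
      (∀ j, ∀ a : Fin n → ℕ, a ≤ E j → ∃ j', E j' = a) →
      (Function.Injective fun j => ∑ i, k i * E j i) →
      ∀ ε : ℝ, 0 < ε → ∃ L₀ : ℕ, ∀ L : ℕ, L₀ ≤ L → ∀ b : ℕ, 2 ≤ b →
        |(monComplexity b (fun i => Real.exp (k i)) E L : ℝ) - L / (m + 1)| < ε * L) ∧
    (∀ (K : IntermediateField ℚ ℝ) [FiniteDimensional ℚ K] (n m : ℕ) (α : Fin n → K)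
      (k : Fin n → ℕ) (E : Fin (m + 1) → Fin n → ℕ),
      (∀ j, ∀ a : Fin n → ℕ, a ≤ E j → ∃ j', E j' = a) →
      ∀ R : ℕ, (∀ j, ∑ i, k i * E j i ≤ R) →
      (LinearIndependent ℚ fun j => ∏ i, ((α i : ℝ) * Real.exp (k i)) ^ E j i) →
      ∀ ε : ℝ, 0 < ε → ∃ L₀ : ℕ, ∀ L : ℕ, L₀ ≤ L → ∀ b : ℕ, 2 ≤ b →
        (1 / ((finrank ℚ K : ℝ) * (finrank ℚ K * R + 1)) - ε) * L <
          monComplexity b (fun i => (α i : ℝ) * Real.exp (k i)) E L ∧
        (monComplexity b (fun i => (α i : ℝ) * Real.exp (k i)) E L : ℝ) <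
          (1 / ((m : ℝ) + 1) + ε) * L) ∧
    (∀ r : ℕ, ∀ ε : ℝ, 0 < ε → ∃ L₀ : ℕ, ∀ L : ℕ, L₀ ≤ L → ∀ b : ℕ, 2 ≤ b →
      (1 / (4 * (4 * (r : ℝ) + 1)) - ε) * L <
        monComplexity b ![Real.exp 1, √2, Real.goldenRatio]
          (fun t : Fin (4 * r + 3 + 1) => ![(t : ℕ) / 4, (t : ℕ) / 2 % 2, (t : ℕ) % 2]) L) :=
  ⟨fun _ _ k E hdown hinj ε hε => Pool.Agent.TH629.ExpDig.main k E hdown hinj ε hε,
    fun K _ _ _ α k E hdown R hR hli ε hε =>
      Pool.Agent.TH629.ExpAlg.main K α k E hdown R hR hli ε hε,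
    fun r ε hε => Pool.Agent.TH629.ExpAlg.main_example r ε hε⟩

end Pool.Agent.Results.MP_7e9a3a_nt.AlgebraicRelations
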