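import Mathlib
import Pool.Agent.H43R2.Cplx.EFinal2

set_option autoImplicit false

namespace Pool.Agent.Results.MP_7e9a3a_nt.BlocksOfELimsup

/-- The block complexity: the number of distinct blocks of `n` consecutive digits in the base `b`
expansion of the fractional part of `ξ`. -/
noncomputable def blockCount (b : ℕ) [NeZero b] (ξ : ℝ) (n : ℕ) : ℕ :=
  (Set.range fun i : ℕ => fun k : Fin n => Real.digits (Int.fract ξ) b (i + k)).ncard

/-- For every irrational real number `ξ` of irrationality exponent `2`, in particular for `e`, and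
every base `b ≥ 2`, `limsup p(n, ξ, b) / n ≥ 3/2`, where `p(n, ξ, b)` is the number of distinct
blocks of `n` digits in the base `b` expansion of `ξ`. -/
theorem result :
    (∀ ξ : ℝ, Irrational ξ → (∀ p : ℝ, 2 < p → ¬ LiouvilleWith p ξ) →
      ∀ (b : ℕ) [NeZero b], 2 ≤ b → ∀ c : ℝ, c < 3 / 2 →
        ∃ᶠ n : ℕ in Filter.atTop, c * n < blockCount b ξ n) ∧
    (∀ (b : ℕ) [NeZero b], 2 ≤ b → ∀ c : ℝ, c < 3 / 2 →
        ∃ᶠ n : ℕ in Filter.atTop, c * n < blockCount b (Real.exp 1) n) :=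
  ⟨fun ξ hξ h b _ hb c hc =>
      Pool.Agent.H43R2.Cplx.limsup_of_exp2
        (Pool.Agent.H43R2.Cplx.exp2_of_not_liouvilleWith hξ h) b hb hc,
    fun b _ hb c hc => Pool.Agent.H43R2.Cplx.limsup_e b hb hc⟩

end Pool.Agent.Results.MP_7e9a3a_nt.BlocksOfELimsup
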