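import Pool.Agent.W47.LC.Two
import Pool.Agent.W47.LC.EBound

/-!
# The linear complexity profile of the digits of `e` and of quadratic irrationals

The linear complexity of the first `L` digits is `L / 2 + O(√(L log L))`, as for a random sequence,
with a constant that does not depend on the base.
-/

set_option autoImplicit false

namespace Pool.Agent.Results.MP_7e9a3a_nt.LinearComplexityTwoSided

open Finset Polynomial

/-- the `i`-th digit of `x` after the point in base `b` -/
noncomputable def digit (b : ℕ) (x : ℝ) (i : ℕ) : ℤ := ⌊x * (b : ℝ) ^ i⌋ % (b : ℤ)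

/-- The digits `s_1, …, s_L` satisfy a linear recurrence of order `m` over `ℚ`:
`s_(i+m) = c_0 s_i + … + c_(m-1) s_(i+m-1)` for `1 ≤ i ≤ L - m`. -/
def Recurrence (b : ℕ) (x : ℝ) (L m : ℕ) : Prop :=
  ∃ c : ℕ → ℚ, ∀ i : ℕ, 1 ≤ i → i + m ≤ L →
    (digit b x (i + m) : ℚ) = ∑ j ∈ range m, c j * (digit b x (i + j) : ℚ)

/-- the linear complexity over `ℚ` of the first `L` digits of `x` in base `b`: the least order of
a linear recurrence over `ℚ` which they satisfy -/
noncomputable def linearComplexity (b : ℕ) (x : ℝ) (L : ℕ) : ℕ := sInf {m | Recurrence b x L m}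

/-- the digits of `x` have the linear complexity profile `L / 2 + O(√(L log L))`, uniformly in the
base -/
def Profile (x : ℝ) : Prop :=
  ∃ C : ℝ, ∀ L : ℕ, ∀ b : ℕ, 2 ≤ b →
    |(linearComplexity b x L : ℝ) - L / 2| ≤ C * Real.sqrt (L * Real.log (L + 1))

/-- numbers which are almost badly approximable -/
theorem main (x : ℝ) (A : ℕ) (c : ℝ) (hc : 0 < c)
    (hx : ∀ q : ℕ, 1 ≤ q → ∀ p : ℤ, c ≤ (q : ℝ) * (1 + Real.log q) ^ A * |q * x - p|) :
    Profile x :=
  Pool.Agent.W47.LC.two x A c hc hx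

/-- Liouville's inequality for quadratic irrationals -/
theorem liouville (x : ℝ) (hx : Irrational x) (u v w : ℤ) (hu : u ≠ 0)
    (h : (u : ℝ) * x ^ 2 + v * x + w = 0) :
    ∃ c : ℝ, 0 < c ∧ ∀ q : ℕ, 1 ≤ q → ∀ p : ℤ, c ≤ (q : ℝ) * |q * x - p| := by
  set f : ℤ[X] := C u * X ^ 2 + C v * X + C w with hf
  have hd : f.natDegree = 2 := natDegree_quadratic hu
  have f0 : f ≠ 0 := by
    intro h0
    rw [h0, natDegree_zero] at hd
    omega
  obtain ⟨a, ha, hL⟩ := Liouville.exists_pos_real_of_irrational_root hx f0 (by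
    rw [hf]
    simp only [Polynomial.map_add, Polynomial.map_mul, Polynomial.map_pow, Polynomial.map_C,
      Polynomial.map_X, eval_add, eval_mul, eval_pow, eval_C, eval_X]
    simpa using h)
  refine ⟨1 / a, by positivity, fun q hq p => ?_⟩
  have h1 := hL p (q - 1)
  have hqR : (0 : ℝ) < q := by exact_mod_cast hq
  have e1 : (((q - 1 : ℕ) : ℝ) + 1) = q := by
    rw [Nat.cast_sub hq]
    push_cast
    ring
  rw [e1, hd] at h1
  have e2 : |x - p / q| = |q * x - p| / q := by
    rw [← abs_of_pos hqR, ← abs_div, abs_of_pos hqR]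
    congr 1
    field_simp
  rw [e2] at h1
  rw [div_le_iff₀ ha]
  calc (1 : ℝ) ≤ (q : ℝ) ^ 2 * (|q * x - p| / q * a) := h1
    _ = (q : ℝ) * |q * x - p| * a := by field_simp

/-- For `e`, for `√2`, for every real quadratic irrational, and more generally for every real
number `x` such that for some `A` and some `c > 0` one has `|q x - p| ≥ c / (q (1 + log q)^A)` for
all integers `p` and `q ≥ 1`, there is a constant `C` such that for all bases `b ≥ 2` and all `L`
the linear complexity over `ℚ` of the first `L` digits of `x` in base `b` differs from `L / 2` by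
at most `C √(L log (L + 1))`. -/
theorem result :
    Profile (Real.exp 1) ∧ Profile (Real.sqrt 2) ∧
    (∀ x : ℝ, Irrational x →
      (∃ u v w : ℤ, u ≠ 0 ∧ (u : ℝ) * x ^ 2 + v * x + w = 0) → Profile x) ∧
    (∀ (x : ℝ) (A : ℕ) (c : ℝ), 0 < c →
      (∀ q : ℕ, 1 ≤ q → ∀ p : ℤ, c ≤ (q : ℝ) * (1 + Real.log q) ^ A * |q * x - p|) →
      Profile x) := by
  have hq : ∀ x : ℝ, Irrational x →
      (∃ u v w : ℤ, u ≠ 0 ∧ (u : ℝ) * x ^ 2 + v * x + w = 0) → Profile x := by
    rintro x hx ⟨u, v, w, hu, h⟩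
    obtain ⟨c, hc, hq⟩ := liouville x hx u v w hu h
    refine main x 0 c hc (fun q hq1 p => ?_)
    rw [pow_zero, mul_one]
    exact hq q hq1 p
  refine ⟨?_, ?_, hq, main⟩
  · exact main (Real.exp 1) 1 (1 / 1000) (by norm_num) Pool.Agent.W47.LC.eBound
  · refine hq _ irrational_sqrt_two ⟨1, 0, -2, one_ne_zero, ?_⟩
    have := Real.sq_sqrt (by norm_num : (0 : ℝ) ≤ 2)
    push_cast
    rw [this]
    norm_num

end Pool.Agent.Results.MP_7e9a3a_nt.LinearComplexityTwoSided
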