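import Pool.Agent.V11235.SG.Final
import Pool.Agent.H847R3.SuppF

/-!
# Places of nonzero digits of `e`, `π`, `√2` and of positive numbers satisfying a relation
-/

set_option autoImplicit false

open Finset

namespace Pool.Agent.Results.MP_7e9a3a_nt.SumsOfPlaces

/-- the entry of the positive number `x` at the place `k` in base `b`: the integral part at the
place `0`, the `k`-th digit after the point at the place `k ≥ 1` -/
noncomputable def entry (b : ℕ) (x : ℝ) (k : ℕ) : ℕ :=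
  if k = 0 then ⌊x⌋₊ else ⌊x * (b : ℝ) ^ k⌋₊ % b

/-- the integral part plus the sum of the first `n` digits after the point -/
noncomputable def S (b : ℕ) (x : ℝ) (n : ℕ) : ℕ := ∑ k ∈ range (n + 1), entry b x k

/-- `k` is a sum of places, one place of a nonzero entry for every number of one of the lists -/
def IsSum (b : ℕ) {r : ℕ} (L : Fin r → List ℝ) (k : ℕ) : Prop :=
  ∃ i, ∃ s : List ℕ, List.Forall₂ (fun x j => entry b x j ≠ 0) (L i) s ∧ s.sum = k

open Classical in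
/-- Let positive numbers satisfy a relation `∑ a_i ∏ L_i = c` with natural numbers `a_i ≥ 1` and
`c`, one of the numbers being irrational, and let `M ≥ 1` be a bound for the numbers, `D` a bound
for the number of factors. In every base: (1) a lower bound for the digit sums between two places;
(2) an interval without sums of places of nonzero digits is short; (3) there are many such sums.
Moreover, for `x = e, π, √2` the digit sums of `x` and `1 / x` satisfy the explicit inequality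
of (1). -/
theorem result :
    (∀ (b : ℕ), 2 ≤ b → ∀ (r : ℕ) (a : Fin r → ℕ) (L : Fin r → List ℝ) (c D : ℕ) (M : ℝ),
      (∀ i, 0 < a i) → 1 ≤ M → (∀ i, (L i).length ≤ D ∧ ∀ x ∈ L i, 0 < x ∧ x ≤ M) →
      (∃ i, ∃ x ∈ L i, Irrational x) → ∑ i, (a i : ℝ) * (L i).prod = c →
      (∀ n m : ℕ, n ≤ m → ((b : ℝ) - 1) * ((m : ℝ) - D * n) ≤
        ∑ i, (a i : ℝ) * (((L i).map fun x => (S b x m : ℝ) + M).prod -
          ((L i).map fun x => (S b x n : ℝ)).prod)) ∧
      (∀ (N g : ℕ) (K : ℝ), 1 ≤ K → (∀ i, ∀ x ∈ L i, (S b x (N + g) : ℝ) ≤ K) →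
        (∀ k, N < k → k ≤ N + g → ¬ IsSum b L k) →
        (b : ℝ) ^ g ≤ (∑ i, (a i : ℝ)) * (D * M ^ (D - 1)) * K ^ (D - 1)) ∧
      ∃ N0 : ℕ, ∀ N : ℕ, N0 ≤ N → Real.log 2 / 10 * N ≤
        (((Icc 1 N).filter (IsSum b L)).card : ℝ) *
          Real.log (2 + (∑ i, (a i : ℝ) * ((L i).map fun x => (S b x N : ℝ) + M).prod) / N)) ∧
    (∀ x : ℝ, x = Real.exp 1 ∨ x = Real.pi ∨ x = √2 → ∀ (b : ℕ), 2 ≤ b → ∀ n m : ℕ, n ≤ m →
      ((b : ℝ) - 1) * ((m : ℝ) - 2 * n) + (S b x n : ℝ) * S b x⁻¹ n ≤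
        ((S b x m : ℝ) + 4) * ((S b x⁻¹ m : ℝ) + 4)) := by
  have hgen : ∀ (b : ℕ), 2 ≤ b → ∀ (r : ℕ) (a : Fin r → ℕ) (L : Fin r → List ℝ) (c D : ℕ) (M : ℝ),
      (∀ i, 0 < a i) → 1 ≤ M → (∀ i, (L i).length ≤ D ∧ ∀ x ∈ L i, 0 < x ∧ x ≤ M) →
      (∃ i, ∃ x ∈ L i, Irrational x) → ∑ i, (a i : ℝ) * (L i).prod = c →
      (∀ n m : ℕ, n ≤ m → ((b : ℝ) - 1) * ((m : ℝ) - D * n) ≤
        ∑ i, (a i : ℝ) * (((L i).map fun x => (S b x m : ℝ) + M).prod -
          ((L i).map fun x => (S b x n : ℝ)).prod)) ∧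
      (∀ (N g : ℕ) (K : ℝ), 1 ≤ K → (∀ i, ∀ x ∈ L i, (S b x (N + g) : ℝ) ≤ K) →
        (∀ k, N < k → k ≤ N + g → ¬ IsSum b L k) →
        (b : ℝ) ^ g ≤ (∑ i, (a i : ℝ)) * (D * M ^ (D - 1)) * K ^ (D - 1)) ∧
      ∃ N0 : ℕ, ∀ N : ℕ, N0 ≤ N → Real.log 2 / 10 * N ≤
        (((Icc 1 N).filter (IsSum b L)).card : ℝ) *
          Real.log (2 + (∑ i, (a i : ℝ) * ((L i).map fun x => (S b x N : ℝ) + M).prod) / N) := by
    intro b hb r a L c D M ha hM hL hirr hrel
    have hirr' : ∃ i ∈ (univ : Finset (Fin r)), a i ≠ 0 ∧ ∃ x ∈ L i, Irrational x := by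
      obtain ⟨i, hi⟩ := hirr
      exact ⟨i, mem_univ i, (ha i).ne', hi⟩
    have hR : ∀ k, V11235.SG.RepL univ a L b k ↔ IsSum b L k := by
      intro k
      constructor
      · rintro ⟨i, -, -, s, hs1, hs2⟩
        exact ⟨i, s, hs1, hs2⟩
      · rintro ⟨i, s, hs1, hs2⟩
        exact ⟨i, mem_univ i, (ha i).ne', s, hs1, hs2⟩
    have hR' : V11235.SG.RepL univ a L b = IsSum b L := funext fun k => propext (hR k)
    refine ⟨fun n m hnm => ?_, fun N g K hK1 hK hk => ?_, ?_⟩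
    · have h := V11235.SG.digits_two (t := univ) (a := a) (L := L) (c := c) hb hM (D := D)
        (fun i _ => hL i) hirr' hrel n m hnm
      refine h.trans (le_of_eq (sum_congr rfl fun i _ => ?_))
      congr 2
      unfold V11235.SG.PD
      rw [Nat.cast_list_prod, List.map_map]
      rfl
    · exact V11235.SG.gap_list (t := univ) (a := a) (L := L) (c := c) hb hM (D := D)
        (fun i _ => hL i) hirr' hrel N g K hK1 (fun i _ x hx => hK i x hx)
        (fun k hk1 hk2 => (hR k).not.mpr (hk k hk1 hk2))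
    · have h := V11235.SG.log_list (t := univ) (a := a) (L := L) (c := c) hb hM
        (fun i _ => (hL i).2) hirr' hrel
      rw [hR'] at h
      exact h
  refine ⟨hgen, fun x hx b hb n m hnm => ?_⟩
  have hx1 : Irrational x ∧ 1 ≤ x ∧ x ≤ 4 := by
    rcases hx with rfl | rfl | rfl
    · refine ⟨Pool.Agent.H847R3.XpXq.e_good.1, ?_, ?_⟩
      · have := Real.add_one_le_exp (1 : ℝ); linarith
      · have := Real.exp_one_lt_d9; linarith
    · exact ⟨irrational_pi, by linarith [Real.pi_gt_three], Real.pi_le_four⟩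
    · refine ⟨irrational_sqrt_two, Real.one_le_sqrt.mpr (by norm_num), ?_⟩
      rw [Real.sqrt_le_left (by norm_num)]; norm_num
  obtain ⟨hirr, h1, h4⟩ := hx1
  have hx0 : 0 < x := by linarith
  have hinv : x⁻¹ ≤ 1 := inv_le_one_of_one_le₀ h1
  have h := (hgen b hb 1 (fun _ => 1) (fun _ => [x, x⁻¹]) 1 2 4 (fun _ => one_pos) (by norm_num)
    (fun _ => ⟨by simp, by
      intro y hy
      simp only [List.mem_cons, List.not_mem_nil, or_false] at hy
      rcases hy with rfl | rfl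
      · exact ⟨hx0, h4⟩
      · exact ⟨inv_pos.mpr hx0, by linarith⟩⟩)
    ⟨0, x, by simp, hirr⟩ (by simp [hx0.ne'])).1 n m hnm
  simp only [univ_unique, Fin.default_eq_zero, Fin.isValue, sum_const, card_singleton, one_smul,
    List.map_cons, List.map_nil, List.prod_cons, List.prod_nil, mul_one, Nat.cast_one, one_mul,
    Nat.cast_ofNat] at h
  linarith

end Pool.Agent.Results.MP_7e9a3a_nt.SumsOfPlaces
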